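import Pool.Agent.H688R3.TuranGenBase

/-!
The blow-up of a cover: classes of size `b`, grouped into `g` groups of `N'` classes each.  A cover
of the `s`-sets of classes, together with all `r`-sets lying in at most `h` classes of one group,
covers all `m`-sets of points when `g (r - 1) + s ≤ m` and `r ≤ 2 h`.
-/

set_option autoImplicit false

open Finset Filter Topology

namespace Pool.Agent.TH487.LogR

section

variable {ι κ β : Type*} [Fintype ι] [Fintype κ] [Fintype β]

theorem blow [DecidableEq ι] [DecidableEq κ] [DecidableEq β] {r s h m : ℕ}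
    (H : Finset (Finset (ι × κ))) (hH : ∀ R ∈ H, R.card = r)
    (hcov : ∀ S : Finset (ι × κ), S.card = s → ∃ R ∈ H, R ⊆ S)
    (h2h : r ≤ 2 * h) (hκ : h ≤ Fintype.card κ)
    (hm : Fintype.card ι * (r - 1) + s ≤ m) (hr : 1 ≤ r) :
    ∃ T : Finset (Finset ((ι × κ) × β)), (∀ e ∈ T, e.card = r) ∧
      (∀ A : Finset ((ι × κ) × β), A.card = m → ∃ e ∈ T, e ⊆ A) ∧
      T.card ≤ H.card * (Fintype.card β) ^ r +
        Fintype.card ι * ((Fintype.card κ).choose h * (h * Fintype.card β).choose r) := by
  classical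
  set T1 : Finset (Finset ((ι × κ) × β)) := H.biUnion (fun R =>
    (R.pi (fun _ => (univ : Finset β))).image
      (fun φ => R.attach.image (fun c => ((c.1, φ c.1 c.2) : (ι × κ) × β)))) with hT1
  set T2 : Finset (Finset ((ι × κ) × β)) := (univ : Finset ι).biUnion (fun i =>
    (powersetCard h (univ : Finset κ)).biUnion (fun K =>
      powersetCard r ((({i} : Finset ι) ×ˢ K) ×ˢ (univ : Finset β)))) with hT2
  refine ⟨T1 ∪ T2, ?_, ?_, ?_⟩
  · intro e he
    rw [mem_union] at he
    rcases he with he | he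
    · rw [hT1, mem_biUnion] at he
      obtain ⟨R, hR, he⟩ := he
      rw [mem_image] at he
      obtain ⟨φ, -, rfl⟩ := he
      rw [card_image_of_injective, card_attach]
      · exact hH R hR
      · intro x y hxy
        simp only [Prod.mk.injEq] at hxy
        exact Subtype.ext hxy.1
    · rw [hT2, mem_biUnion] at he
      obtain ⟨i, -, he⟩ := he
      rw [mem_biUnion] at he
      obtain ⟨K, -, he⟩ := he
      exact (mem_powersetCard.1 he).2
  · intro A hA
    set B : Finset (ι × κ) := A.image Prod.fst with hB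
    rcases Nat.lt_or_ge B.card s with hlt | hge
    · -- few classes
      set mu : ι × κ → ℕ := fun c => (A.filter (fun x => x.1 = c)).card with hmu
      have hsum : ∑ c : ι × κ, mu c = m := by
        rw [← hA]
        exact (card_eq_sum_card_fiberwise (f := Prod.fst) (s := A) (t := univ)
          (fun x _ => Finset.mem_coe.2 (mem_univ _))).symm
      have hmu0 : ∀ c, c ∉ B → mu c = 0 := by
        intro c hc
        rw [hmu]
        simp only [card_eq_zero]
        rw [filter_eq_empty_iff]
        intro x hx hxc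
        exact hc (mem_image.2 ⟨x, hx, hxc⟩)
      have hexc : m ≤ ∑ c : ι × κ, (mu c - 1) + B.card := by
        have h1 : ∀ c : ι × κ, mu c ≤ (mu c - 1) + (if c ∈ B then 1 else 0) := by
          intro c
          by_cases hc : c ∈ B
          · rw [if_pos hc]; omega
          · rw [if_neg hc, hmu0 c hc]
        calc m = ∑ c : ι × κ, mu c := hsum.symm
          _ ≤ ∑ c : ι × κ, ((mu c - 1) + (if c ∈ B then 1 else 0)) := sum_le_sum fun c _ => h1 c
          _ = ∑ c : ι × κ, (mu c - 1) + B.card := by
              rw [sum_add_distrib]; simp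
      have hgroup : ∃ i : ι, r ≤ ∑ k : κ, (mu (i, k) - 1) := by
        by_contra hcon
        push Not at hcon
        have h2 : ∑ c : ι × κ, (mu c - 1) ≤ Fintype.card ι * (r - 1) := by
          rw [Fintype.sum_prod_type]
          calc ∑ i : ι, ∑ k : κ, (mu (i, k) - 1) ≤ ∑ _i : ι, (r - 1) :=
                sum_le_sum fun i _ => by have := hcon i; omega
            _ = _ := by rw [sum_const, card_univ, smul_eq_mul]
        omega
      obtain ⟨i, hi⟩ := hgroup
      have hK : ∃ K : Finset κ, K.card = h ∧ r ≤ ∑ k ∈ K, mu (i, k) := by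
        set D : Finset κ := univ.filter (fun k => 2 ≤ mu (i, k)) with hD
        rcases Nat.lt_or_ge D.card h with hDh | hDh
        · obtain ⟨K, hDK, hKc⟩ := exists_superset_card_eq hDh.le hκ
          refine ⟨K, hKc, ?_⟩
          calc r ≤ ∑ k : κ, (mu (i, k) - 1) := hi
            _ = ∑ k ∈ D, (mu (i, k) - 1) := by
                symm
                apply sum_subset (subset_univ _)
                intro k _ hk
                rw [hD, mem_filter] at hk
                push Not at hk
                have := hk (mem_univ _)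
                omega
            _ ≤ ∑ k ∈ D, mu (i, k) := sum_le_sum fun k _ => by omega
            _ ≤ ∑ k ∈ K, mu (i, k) := sum_le_sum_of_subset hDK
        · obtain ⟨K, hKD, hKc⟩ := exists_subset_card_eq hDh
          refine ⟨K, hKc, ?_⟩
          calc r ≤ 2 * h := h2h
            _ = ∑ _k ∈ K, 2 := by rw [sum_const, hKc, smul_eq_mul, mul_comm]
            _ ≤ ∑ k ∈ K, mu (i, k) := sum_le_sum fun k hk => (mem_filter.1 (hKD hk)).2
      obtain ⟨K, hKc, hKr⟩ := hK
      set A' : Finset ((ι × κ) × β) := A.filter (fun x => x.1.1 = i ∧ x.1.2 ∈ K) with hA'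
      have hA'c : r ≤ A'.card := by
        have : ∑ k ∈ K, mu (i, k) = A'.card := by
          rw [card_eq_sum_card_fiberwise (f := fun x => x.1.2) (s := A') (t := K)
            (fun x hx => (mem_filter.1 hx).2.2)]
          apply sum_congr rfl
          intro k hk
          rw [hmu]
          simp only
          congr 1
          ext x
          simp only [hA', mem_filter]
          constructor
          · rintro ⟨h1, h2⟩
            exact ⟨⟨h1, by rw [h2], by rw [h2]; exact hk⟩, by rw [h2]⟩
          · rintro ⟨⟨h1, h2, h3⟩, h4⟩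
            exact ⟨h1, Prod.ext h2 h4⟩
        rw [← this]; exact hKr
      obtain ⟨e, he, hec⟩ := exists_subset_card_eq hA'c
      refine ⟨e, ?_, he.trans (filter_subset _ _)⟩
      rw [mem_union]
      right
      rw [hT2, mem_biUnion]
      refine ⟨i, mem_univ _, ?_⟩
      rw [mem_biUnion]
      refine ⟨K, mem_powersetCard.2 ⟨subset_univ _, hKc⟩, ?_⟩
      rw [mem_powersetCard]
      refine ⟨fun x hx => ?_, hec⟩
      have h5 := (mem_filter.1 (he hx)).2
      simp only [mem_product, mem_singleton, mem_univ, and_true]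
      exact h5
    · -- many classes
      obtain ⟨S, hSB, hSc⟩ := exists_subset_card_eq hge
      obtain ⟨R, hR, hRS⟩ := hcov S hSc
      have hRB : ∀ c ∈ R, ∃ y : β, (c, y) ∈ A := by
        intro c hc
        have := hSB (hRS hc)
        rw [hB, mem_image] at this
        obtain ⟨x, hx, hxc⟩ := this
        exact ⟨x.2, by rw [← hxc]; exact hx⟩
      choose φ hφ using hRB
      refine ⟨R.attach.image (fun c => ((c.1, φ c.1 c.2) : (ι × κ) × β)), ?_, ?_⟩
      · rw [mem_union]
        left
        rw [hT1, mem_biUnion]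
        refine ⟨R, hR, ?_⟩
        rw [mem_image]
        exact ⟨φ, by simp, rfl⟩
      · intro x hx
        rw [mem_image] at hx
        obtain ⟨c, -, rfl⟩ := hx
        exact hφ c.1 c.2
  · refine (card_union_le _ _).trans (Nat.add_le_add ?_ ?_)
    · rw [hT1]
      refine card_biUnion_le.trans ?_
      calc ∑ R ∈ H, ((R.pi (fun _ => (univ : Finset β))).image
            (fun φ => R.attach.image (fun c => ((c.1, φ c.1 c.2) : (ι × κ) × β)))).card
          ≤ ∑ _R ∈ H, (Fintype.card β) ^ r := by
            apply sum_le_sum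
            intro R hR
            refine card_image_le.trans ?_
            rw [card_pi, prod_const, hH R hR, card_univ]
        _ = H.card * (Fintype.card β) ^ r := by rw [sum_const, smul_eq_mul]
    · rw [hT2]
      refine card_biUnion_le.trans ?_
      calc ∑ i : ι, ((powersetCard h (univ : Finset κ)).biUnion (fun K =>
            powersetCard r ((({i} : Finset ι) ×ˢ K) ×ˢ (univ : Finset β)))).card
          ≤ ∑ _i : ι, (Fintype.card κ).choose h * (h * Fintype.card β).choose r := by
            apply sum_le_sum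
            intro i _
            refine card_biUnion_le.trans (le_of_eq ?_)
            calc ∑ K ∈ powersetCard h (univ : Finset κ),
                  (powersetCard r ((({i} : Finset ι) ×ˢ K) ×ˢ (univ : Finset β))).card
                = ∑ _K ∈ powersetCard h (univ : Finset κ), (h * Fintype.card β).choose r := by
                  apply sum_congr rfl
                  intro K hK
                  rw [card_powersetCard, card_product, card_product, card_singleton, one_mul,
                    (mem_powersetCard.1 hK).2, card_univ]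
              _ = _ := by rw [sum_const, card_powersetCard, card_univ, smul_eq_mul]
        _ = _ := by rw [sum_const, card_univ, smul_eq_mul]

end

open Pool.Agent.H688R3.TuranGen

/-- the same on `Fin (g * N' * b)` with a cover on `Fin (g * N')` -/
theorem blow_fin {r s h m g N' : ℕ} (H : Finset (Finset (Fin (g * N')))) (hH : ∀ R ∈ H, R.card = r)
    (hcov : ∀ S : Finset (Fin (g * N')), S.card = s → ∃ R ∈ H, R ⊆ S)
    (h2h : r ≤ 2 * h) (hκ : h ≤ N') (hm : g * (r - 1) + s ≤ m) (hr : 1 ≤ r) (b : ℕ) :
    ∃ T : Finset (Finset (Fin (g * N' * b))), Cov r m T ∧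
      T.card ≤ H.card * b ^ r + g * (N'.choose h * (h * b).choose r) := by
  classical
  set E : Fin g × Fin N' ≃ Fin (g * N') := finProdFinEquiv
  set H' : Finset (Finset (Fin g × Fin N')) := H.image (fun R => R.map E.symm.toEmbedding) with hH'
  have hH'c : H'.card = H.card := card_image_of_injective _ (Finset.map_injective _)
  obtain ⟨T, h1, h2, h3⟩ := blow (β := Fin b) (r := r) (s := s) (h := h) (m := m) H'
    (by
      intro R hR
      rw [hH', mem_image] at hR
      obtain ⟨R', hR', rfl⟩ := hR
      rw [card_map]; exact hH R' hR')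
    (by
      intro S hS
      obtain ⟨R, hR, hRS⟩ := hcov (S.map E.toEmbedding) (by rw [card_map, hS])
      refine ⟨R.map E.symm.toEmbedding, mem_image_of_mem _ hR, ?_⟩
      intro x hx
      rw [Finset.mem_map] at hx
      obtain ⟨y, hy, rfl⟩ := hx
      have := hRS hy
      rw [Finset.mem_map] at this
      obtain ⟨z, hz, hzy⟩ := this
      rw [← hzy]
      simpa using hz)
    h2h (by rw [Fintype.card_fin]; exact hκ) (by rw [Fintype.card_fin]; exact hm) hr
  rw [Fintype.card_fin, Fintype.card_fin, Fintype.card_fin, hH'c] at h3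
  set F : (Fin g × Fin N') × Fin b ≃ Fin (g * N' * b) :=
    (Equiv.prodCongr E (Equiv.refl _)).trans finProdFinEquiv
  refine ⟨T.image (fun e => e.map F.toEmbedding), ⟨?_, ?_⟩, ?_⟩
  · intro e he
    rw [mem_image] at he
    obtain ⟨e', he', rfl⟩ := he
    rw [card_map]; exact h1 e' he'
  · intro A hA
    obtain ⟨e, he, heA⟩ := h2 (A.map F.symm.toEmbedding) (by rw [card_map, hA])
    refine ⟨e.map F.toEmbedding, mem_image_of_mem _ he, ?_⟩
    intro x hx
    rw [Finset.mem_map] at hx
    obtain ⟨y, hy, rfl⟩ := hx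
    have := heA hy
    rw [Finset.mem_map] at this
    obtain ⟨z, hz, hzy⟩ := this
    rw [← hzy]
    simpa using hz
  · rw [card_image_of_injective _ (Finset.map_injective _)]
    exact h3

lemma t_le_aux {r m N : ℕ} {C : ℝ} (hN1 : 1 ≤ N) (hC0 : 0 ≤ C)
    (hT : ∀ b : ℕ, ∃ T : Finset (Finset (Fin (N * b))), Cov r m T ∧ (T.card : ℝ) ≤ C * (b : ℝ) ^ r) :
    t r m ≤ C * r.factorial / (N : ℝ) ^ r := by
  have hN0 : (0 : ℝ) < (N : ℝ) := by exact_mod_cast hN1
  have hf0 : (0 : ℝ) < (r.factorial : ℝ) := by exact_mod_cast Nat.factorial_pos r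
  have hlim1 : Tendsto (fun b : ℕ => c r m (N * b) / ((N * b).choose r : ℝ)) atTop (𝓝 (t r m)) :=
    (tendsto_c r m).comp (tendsto_id.const_mul_atTop' (by omega))
  have hlim2 : Tendsto (fun b : ℕ => C * r.factorial * (1 / ((N : ℝ) - r / b)) ^ r) atTop
      (𝓝 (C * r.factorial * (1 / ((N : ℝ) - 0)) ^ r)) := by
    have h1 : Tendsto (fun b : ℕ => (r : ℝ) / (b : ℝ)) atTop (𝓝 0) :=
      tendsto_const_div_atTop_nhds_zero_nat (r : ℝ)
    have h2 : Tendsto (fun b : ℕ => (N : ℝ) - (r : ℝ) / (b : ℝ)) atTop (𝓝 ((N : ℝ) - 0)) :=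
      tendsto_const_nhds.sub h1
    have h3 : Tendsto (fun b : ℕ => 1 / ((N : ℝ) - (r : ℝ) / (b : ℝ))) atTop
        (𝓝 (1 / ((N : ℝ) - 0))) :=
      tendsto_const_nhds.div h2 (by rw [sub_zero]; exact hN0.ne')
    exact (h3.pow r).const_mul _
  have hle : ∀ᶠ b : ℕ in atTop, c r m (N * b) / ((N * b).choose r : ℝ) ≤
      C * r.factorial * (1 / ((N : ℝ) - r / b)) ^ r := by
    filter_upwards [eventually_ge_atTop (r + 1)] with b hb
    obtain ⟨T, hT, h1⟩ := hT b
    have hb0 : (0 : ℝ) < (b : ℝ) := by exact_mod_cast (show 0 < b by omega)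
    have hNb : b ≤ N * b := Nat.le_mul_of_pos_left b hN1
    have h6 : c r m (N * b) ≤ C * (b : ℝ) ^ r := (c_le_card hT).trans h1
    have h7 : (((N * b + 1 - r : ℕ) : ℝ)) ^ r / (r.factorial : ℝ) ≤ ((N * b).choose r : ℝ) :=
      Nat.pow_le_choose r (N * b)
    have h8 : (N : ℝ) * b - r ≤ ((N * b + 1 - r : ℕ) : ℝ) := by
      rw [Nat.cast_sub (by omega)]
      push_cast; linarith
    have h9 : (0 : ℝ) < (N : ℝ) * b - r := by
      have : ((r : ℝ) + 1) ≤ b := by exact_mod_cast hb
      have hN1' : (1 : ℝ) ≤ (N : ℝ) := by exact_mod_cast hN1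
      nlinarith
    have h10 : (((N : ℝ) * b - r)) ^ r / (r.factorial : ℝ) ≤ ((N * b).choose r : ℝ) := by
      refine le_trans ?_ h7
      exact div_le_div_of_nonneg_right (pow_le_pow_left₀ h9.le h8 r) hf0.le
    have hpos : 0 < (((N : ℝ) * b - r)) ^ r / (r.factorial : ℝ) := by positivity
    calc c r m (N * b) / ((N * b).choose r : ℝ)
        ≤ C * (b : ℝ) ^ r / ((N * b).choose r : ℝ) :=
          div_le_div_of_nonneg_right h6 (Nat.cast_nonneg _)
      _ ≤ C * (b : ℝ) ^ r / ((((N : ℝ) * b - r)) ^ r / (r.factorial : ℝ)) :=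
          div_le_div_of_nonneg_left (by positivity) hpos h10
      _ = C * r.factorial * (1 / ((N : ℝ) - r / b)) ^ r := by
          have e1 : (1 / ((N : ℝ) - r / b)) = (b : ℝ) / ((N : ℝ) * b - r) := by
            field_simp
          rw [e1, div_pow]
          field_simp
  have hfin := le_of_tendsto_of_tendsto hlim1 hlim2 hle
  rw [sub_zero] at hfin
  refine hfin.trans (le_of_eq ?_)
  rw [one_div, inv_pow]
  ring

/-- the resulting bound on the covering density -/
theorem t_le {r s h m g N' : ℕ} (H : Finset (Finset (Fin (g * N')))) (hH : ∀ R ∈ H, R.card = r)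
    (hcov : ∀ S : Finset (Fin (g * N')), S.card = s → ∃ R ∈ H, R ⊆ S)
    (h2h : r ≤ 2 * h) (hκ : h ≤ N') (hm : g * (r - 1) + s ≤ m) (hr : 1 ≤ r) (hg : 1 ≤ g)
    (hN' : 1 ≤ N') :
    t r m ≤ ((H.card : ℝ) + g * (N'.choose h : ℝ) * ((h : ℝ) ^ r / r.factorial)) * r.factorial /
      ((g * N' : ℕ) : ℝ) ^ r := by
  refine t_le_aux (Nat.mul_pos hg hN') (by positivity) fun b => ?_
  obtain ⟨T, hT, hTc⟩ := blow_fin H hH hcov h2h hκ hm hr b
  refine ⟨T, hT, ?_⟩
  have h2 : (T.card : ℝ) ≤ (H.card : ℝ) * (b : ℝ) ^ r +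
      g * ((N'.choose h : ℝ) * ((h * b).choose r : ℝ)) := by exact_mod_cast hTc
  have h3 : ((h * b).choose r : ℝ) ≤ ((h * b : ℕ) : ℝ) ^ r / (r.factorial : ℝ) :=
    Nat.choose_le_pow_div r (h * b)
  have h4 : ((h * b : ℕ) : ℝ) ^ r / (r.factorial : ℝ) =
      (h : ℝ) ^ r / (r.factorial : ℝ) * (b : ℝ) ^ r := by
    push_cast; rw [mul_pow]; ring
  rw [h4] at h3
  refine h2.trans ?_
  have h5 : (g : ℝ) * ((N'.choose h : ℝ) * ((h * b).choose r : ℝ)) ≤
      (g : ℝ) * ((N'.choose h : ℝ) * ((h : ℝ) ^ r / (r.factorial : ℝ) * (b : ℝ) ^ r)) := by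
    apply mul_le_mul_of_nonneg_left _ (Nat.cast_nonneg _)
    exact mul_le_mul_of_nonneg_left h3 (Nat.cast_nonneg _)
  linarith

end Pool.Agent.TH487.LogR
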