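import Mathlib

/-!
The greedy covering bound: there are at most `C(N,r)/C(s,r) · log C(N,s) + 1` sets of size `r` such
that every `s`-subset of `Fin N` contains one of them.
-/

set_option autoImplicit false

open Finset

namespace Pool.Agent.TH487.LogR

variable {N : ℕ}

open Classical in
/-- the `s`-sets containing no member of `H` -/
noncomputable def missed (H : Finset (Finset (Fin N))) (s : ℕ) : Finset (Finset (Fin N)) :=
  (powersetCard s univ).filter (fun S => ∀ R ∈ H, ¬ R ⊆ S)

lemma step {r s : ℕ} (hrs : r ≤ s) (hsN : s ≤ N) (H : Finset (Finset (Fin N))) :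
    ∃ R : Finset (Fin N), R.card = r ∧
      ((missed (insert R H) s).card : ℝ) ≤
        (missed H s).card * (1 - (s.choose r : ℝ) / (N.choose r : ℝ)) := by
  classical
  have hN : 0 < N.choose r := Nat.choose_pos (hrs.trans hsN)
  have hNr : (0 : ℝ) < (N.choose r : ℝ) := by exact_mod_cast hN
  -- double counting
  have hdc : ∑ R ∈ powersetCard r (univ : Finset (Fin N)),
      ((missed H s).filter (fun S => R ⊆ S)).card = (missed H s).card * s.choose r := by
    simp_rw [card_filter]
    rw [sum_comm]
    have : ∀ S ∈ missed H s, ∑ R ∈ powersetCard r (univ : Finset (Fin N)),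
        (if R ⊆ S then 1 else 0) = s.choose r := by
      intro S hS
      have hSc : S.card = s := (mem_powersetCard.1 (mem_filter.1 hS).1).2
      rw [← card_filter, ← hSc, ← card_powersetCard]
      congr 1
      ext R
      simp only [mem_filter, mem_powersetCard, subset_univ, true_and]
      tauto
    rw [sum_congr rfl this, sum_const, smul_eq_mul]
  have hex : ∃ R ∈ powersetCard r (univ : Finset (Fin N)),
      (missed H s).card * s.choose r ≤
        ((missed H s).filter (fun S => R ⊆ S)).card * N.choose r := by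
    by_contra hcon
    push Not at hcon
    have hne : (powersetCard r (univ : Finset (Fin N))).Nonempty := by
      rw [← card_pos, card_powersetCard, card_univ, Fintype.card_fin]; exact hN
    have h1 := sum_lt_sum_of_nonempty hne hcon
    rw [← sum_mul, hdc, sum_const, card_powersetCard, card_univ, Fintype.card_fin, smul_eq_mul,
      mul_comm (N.choose r)] at h1
    exact lt_irrefl _ h1
  obtain ⟨R, hR, hle⟩ := hex
  refine ⟨R, (mem_powersetCard.1 hR).2, ?_⟩
  have hsplit : (missed (insert R H) s).card + ((missed H s).filter (fun S => R ⊆ S)).card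
      = (missed H s).card := by
    have e : missed (insert R H) s = (missed H s).filter (fun S => ¬ R ⊆ S) := by
      ext S
      simp only [missed, mem_filter, mem_insert, forall_eq_or_imp]
      tauto
    rw [e, add_comm]
    exact card_filter_add_card_filter_not _
  have hsplit' : ((missed (insert R H) s).card : ℝ)
      + (((missed H s).filter (fun S => R ⊆ S)).card : ℝ) = ((missed H s).card : ℝ) := by
    exact_mod_cast hsplit
  have hle' : ((missed H s).card : ℝ) * (s.choose r : ℝ) ≤
      (((missed H s).filter (fun S => R ⊆ S)).card : ℝ) * (N.choose r : ℝ) := by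
    exact_mod_cast hle
  rw [mul_sub, mul_one, ← mul_div_assoc]
  have h3 : ((missed H s).card : ℝ) * (s.choose r : ℝ) / (N.choose r : ℝ) ≤
      (((missed H s).filter (fun S => R ⊆ S)).card : ℝ) := by
    rw [div_le_iff₀ hNr]; exact hle'
  linarith

lemma iter {r s : ℕ} (hrs : r ≤ s) (hsN : s ≤ N) (M : ℕ) :
    ∃ H : Finset (Finset (Fin N)), (∀ R ∈ H, R.card = r) ∧ H.card ≤ M ∧
      ((missed H s).card : ℝ) ≤ (N.choose s : ℝ) * (1 - (s.choose r : ℝ) / (N.choose r : ℝ)) ^ M := by
  classical
  have hN : 0 < N.choose r := Nat.choose_pos (hrs.trans hsN)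
  have hNr : (0 : ℝ) < (N.choose r : ℝ) := by exact_mod_cast hN
  have hp : 0 ≤ 1 - (s.choose r : ℝ) / (N.choose r : ℝ) := by
    rw [sub_nonneg, div_le_one hNr]
    exact_mod_cast Nat.choose_le_choose r hsN
  induction M with
  | zero =>
    refine ⟨∅, by simp, by simp, ?_⟩
    rw [pow_zero, mul_one]
    have : (missed (∅ : Finset (Finset (Fin N))) s).card ≤ N.choose s := by
      unfold missed
      refine (card_filter_le _ _).trans ?_
      rw [card_powersetCard, card_univ, Fintype.card_fin]
    exact_mod_cast this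
  | succ M ih =>
    obtain ⟨H, h1, h2, h3⟩ := ih
    obtain ⟨R, hR, hRle⟩ := step hrs hsN H
    refine ⟨insert R H, ?_, ?_, ?_⟩
    · intro R' hR'
      rw [mem_insert] at hR'
      rcases hR' with rfl | h
      · exact hR
      · exact h1 _ h
    · exact (card_insert_le _ _).trans (by omega)
    · rw [pow_succ, ← mul_assoc]
      exact hRle.trans (mul_le_mul_of_nonneg_right h3 hp)

/-- The greedy covering bound. -/
theorem exists_cover {r s : ℕ} (hrs : r ≤ s) (hsN : s ≤ N) :
    ∃ H : Finset (Finset (Fin N)), (∀ R ∈ H, R.card = r) ∧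
      (∀ S : Finset (Fin N), S.card = s → ∃ R ∈ H, R ⊆ S) ∧
      (H.card : ℝ) ≤ (N.choose r : ℝ) / (s.choose r : ℝ) * Real.log (N.choose s : ℝ) + 1 := by
  classical
  have hN : 0 < N.choose r := Nat.choose_pos (hrs.trans hsN)
  have hNr : (0 : ℝ) < (N.choose r : ℝ) := by exact_mod_cast hN
  have hs : (0 : ℝ) < (s.choose r : ℝ) := by exact_mod_cast Nat.choose_pos hrs
  have hNs : (0 : ℝ) < (N.choose s : ℝ) := by exact_mod_cast Nat.choose_pos hsN
  have hNs1 : (1 : ℝ) ≤ (N.choose s : ℝ) := by exact_mod_cast Nat.choose_pos hsN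
  set p : ℝ := (s.choose r : ℝ) / (N.choose r : ℝ) with hp
  have hp0 : 0 < p := div_pos hs hNr
  have hp1 : 0 ≤ 1 - p := by
    rw [sub_nonneg, hp, div_le_one hNr]
    exact_mod_cast Nat.choose_le_choose r hsN
  set x : ℝ := (N.choose r : ℝ) / (s.choose r : ℝ) * Real.log (N.choose s : ℝ) with hx
  have hx0 : 0 ≤ x := mul_nonneg (div_nonneg hNr.le hs.le) (Real.log_nonneg hNs1)
  obtain ⟨H, h1, h2, h3⟩ := iter hrs hsN (⌊x⌋₊ + 1)
  refine ⟨H, h1, ?_, ?_⟩
  · have hlt : ((missed H s).card : ℝ) < 1 := by
      refine lt_of_le_of_lt h3 ?_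
      have h4 : (1 - p) ^ (⌊x⌋₊ + 1) ≤ Real.exp (-(p * (⌊x⌋₊ + 1 : ℕ))) := by
        have h5 : 1 - p ≤ Real.exp (-p) := by
          have := Real.add_one_le_exp (-p)
          linarith
        refine (pow_le_pow_left₀ hp1 h5 _).trans ?_
        rw [← Real.exp_nat_mul]
        apply le_of_eq
        congr 1
        ring
      have h6 : x < ((⌊x⌋₊ + 1 : ℕ) : ℝ) := by
        push_cast
        exact Nat.lt_floor_add_one x
      have h7 : Real.log (N.choose s : ℝ) < p * ((⌊x⌋₊ + 1 : ℕ) : ℝ) := by
        have : p * x = Real.log (N.choose s : ℝ) := by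
          rw [hp, hx]; field_simp
        rw [← this]
        exact mul_lt_mul_of_pos_left h6 hp0
      calc (N.choose s : ℝ) * (1 - p) ^ (⌊x⌋₊ + 1)
          ≤ (N.choose s : ℝ) * Real.exp (-(p * (⌊x⌋₊ + 1 : ℕ))) :=
            mul_le_mul_of_nonneg_left h4 hNs.le
        _ < (N.choose s : ℝ) * Real.exp (-Real.log (N.choose s : ℝ)) := by
            apply mul_lt_mul_of_pos_left _ hNs
            exact Real.exp_lt_exp.2 (neg_lt_neg h7)
        _ = 1 := by
            rw [Real.exp_neg, Real.exp_log hNs, mul_inv_cancel₀ hNs.ne']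
    have h0 : (missed H s).card = 0 := by
      have : (missed H s).card < 1 := by exact_mod_cast hlt
      omega
    intro S hS
    by_contra hcon
    push Not at hcon
    have hmem : S ∈ missed H s := by
      unfold missed
      rw [mem_filter, mem_powersetCard]
      exact ⟨⟨subset_univ _, hS⟩, hcon⟩
    rw [card_eq_zero] at h0
    rw [h0] at hmem
    exact absurd hmem (notMem_empty _)
  · have h4 : (H.card : ℝ) ≤ ((⌊x⌋₊ + 1 : ℕ) : ℝ) := by exact_mod_cast h2
    refine h4.trans ?_
    push_cast
    have := Nat.floor_le hx0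
    linarith

end Pool.Agent.TH487.LogR
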