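import Pool.Agent.TH487.LogR.Num
import Pool.Agent.H688R3.TuranGenLimit

/-!
Bounds in terms of `log r`.
-/

set_option autoImplicit false

open Finset Filter Topology

namespace Pool.Agent.TH487.LogR

open Pool.Agent.H688R3.TuranGen

lemma le_two_pow (h : ℕ) (hh : 1 ≤ h) : (h : ℝ) ≤ 2 ^ (h - 1) := by
  have : h ≤ 2 ^ (h - 1) := by
    have := Nat.lt_two_pow_self (n := h - 1)
    omega
  exact_mod_cast this

lemma log_ten : (2.28 : ℝ) ≤ Real.log 10 := by
  have h1 : Real.log ((2 : ℝ) ^ 33) ≤ Real.log ((10 : ℝ) ^ 10) :=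
    Real.log_le_log (by norm_num) (by norm_num)
  rw [Real.log_pow, Real.log_pow] at h1
  have h2 := Real.log_two_gt_d9
  push_cast at h1
  linarith

lemma log_three : (1 : ℝ) ≤ Real.log 3 := by
  have h1 : Real.exp 1 ≤ 3 := by have := Real.exp_one_lt_d9; linarith
  calc (1 : ℝ) = Real.log (Real.exp 1) := (Real.log_exp 1).symm
    _ ≤ Real.log 3 := Real.log_le_log (Real.exp_pos 1) h1

lemma log_nine : (2 : ℝ) ≤ Real.log 9 := by
  have h1 : Real.log ((2 : ℝ) ^ 3) ≤ Real.log 9 := Real.log_le_log (by norm_num) (by norm_num)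
  rw [Real.log_pow] at h1
  have h2 := Real.log_two_gt_d9
  push_cast at h1
  linarith

/-- the small uniformities -/
lemma small {s a : ℕ} (hs : 2 ≤ s) (ha : (s + 1) ^ 3 ≤ a) :
    (a : ℝ) ^ s * t (s + 1) (a + 1) ≤ (s : ℝ) ^ s * (1 + 1 / (s : ℝ) ^ 2) ^ s := by
  have hs0 : (0 : ℝ) < s := by exact_mod_cast (show 0 < s by omega)
  have hsa : s ≤ a := by
    have h1 : (s + 1) ^ 1 ≤ (s + 1) ^ 3 := Nat.pow_le_pow_right (by omega) (by norm_num)
    rw [pow_one] at h1
    omega
  have h1 := t_div (s := s) hs (j := s + 1) (m := a + 1) le_rfl (by omega)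
  rw [t_self] at h1
  have e1 : a + 1 - 1 = a := by omega
  have e2 : s + 1 - 1 = s := by omega
  rw [e1, e2] at h1
  set q : ℕ := a / s with hq
  have hq2 : s ^ 2 ≤ q := by
    rw [hq, Nat.le_div_iff_mul_le (by omega)]
    calc s ^ 2 * s = s ^ 3 := by ring
      _ ≤ (s + 1) ^ 3 := Nat.pow_le_pow_left (by omega) 3
      _ ≤ a := ha
  have hq1 : 1 ≤ q := le_trans (Nat.one_le_pow _ _ (by omega)) hq2
  have hq0 : (0 : ℝ) < q := by exact_mod_cast hq1
  have haq : (a : ℝ) ≤ s * (q + 1) := by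
    have := Nat.lt_mul_div_succ a (show 0 < s by omega)
    rw [← hq] at this
    exact_mod_cast this.le
  have hq2R : (s : ℝ) ^ 2 ≤ q := by exact_mod_cast hq2
  have ht0 : 0 ≤ t (s + 1) (a + 1) := t_nonneg (by omega)
  have h2 : (a : ℝ) ≤ (s * (1 + 1 / (s : ℝ) ^ 2)) * q := by
    refine haq.trans ?_
    have h3 : (1 : ℝ) ≤ 1 / (s : ℝ) ^ 2 * q := by
      rw [div_mul_eq_mul_div, one_mul, le_div_iff₀ (by positivity), one_mul]
      exact hq2R
    calc (s : ℝ) * (q + 1) ≤ s * (q + 1 / (s : ℝ) ^ 2 * q) :=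
          mul_le_mul_of_nonneg_left (by linarith) hs0.le
      _ = _ := by ring
  calc (a : ℝ) ^ s * t (s + 1) (a + 1)
      ≤ ((s * (1 + 1 / (s : ℝ) ^ 2)) * q) ^ s * t (s + 1) (a + 1) :=
        mul_le_mul_of_nonneg_right (pow_le_pow_left₀ (by positivity) h2 s) ht0
    _ = (s * (1 + 1 / (s : ℝ) ^ 2)) ^ s * ((q : ℝ) ^ s * t (s + 1) (a + 1)) := by
        rw [mul_pow _ (q : ℝ)]; ring
    _ ≤ (s * (1 + 1 / (s : ℝ) ^ 2)) ^ s * 1 :=
        mul_le_mul_of_nonneg_left h1 (by positivity)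
    _ = _ := by rw [mul_one, mul_pow]

lemma four_sq (h : ℕ) (hh : 5 ≤ h) : 16 * h ^ 2 ≤ 25 * 2 ^ (h - 1) := by
  induction h, hh using Nat.le_induction with
  | base => norm_num
  | succ n hn ih =>
    have e : 2 ^ (n + 1 - 1) = 2 * 2 ^ (n - 1) := by
      rw [← pow_succ']; congr 1; omega
    rw [e]
    nlinarith

/-- `log x ≤ x / 4` for `x ≥ 10` -/
lemma log_le_quarter {x : ℝ} (hx : 10 ≤ x) : Real.log x ≤ x / 4 := by
  have h1 : Real.log x = Real.log 10 + Real.log (x / 10) := by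
    rw [← Real.log_mul (by norm_num) (by positivity)]
    congr 1; field_simp
  have h2 : Real.log (x / 10) ≤ x / 10 - 1 := Real.log_le_sub_one_of_pos (by positivity)
  have h3 : Real.log 10 ≤ 2.5 := by
    have h4 : Real.log 10 ≤ Real.log ((2 : ℝ) ^ 7 / 10 * 1) + 0 := by
      rw [add_zero]
      apply Real.log_le_log (by norm_num) (by norm_num)
    have h5 : Real.log ((2 : ℝ) ^ 7 / 10 * 1) = 7 * Real.log 2 - Real.log 10 := by
      rw [mul_one, Real.log_div (by norm_num) (by norm_num), Real.log_pow]; push_cast; ring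
    have h6 := Real.log_two_lt_d9
    linarith
  linarith

/-- the bound for `r ≥ 10`, with `l = ⌈log r⌉` -/
theorem large {r a : ℕ} (hr : 10 ≤ r) (ha : r ^ 3 ≤ a) :
    (a : ℝ) ^ (r - 1) * t r (a + 1) ≤
      r.factorial * (Real.log r + Real.log (Real.log r) + 110) := by
  have hfac : (0 : ℝ) < (r.factorial : ℝ) := by exact_mod_cast Nat.factorial_pos r
  have hrR : (10 : ℝ) ≤ r := by exact_mod_cast hr
  set L : ℝ := Real.log r with hL
  have hL1 : (2.28 : ℝ) ≤ L := log_ten.trans (Real.log_le_log (by norm_num) hrR)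
  have hL2 : L ≤ r / 4 := log_le_quarter hrR
  set l : ℕ := ⌈L⌉₊ with hl
  have hlL : L ≤ l := Nat.le_ceil L
  have hlL1 : (l : ℝ) ≤ L + 1 := (Nat.ceil_lt_add_one (by linarith)).le
  have hl3 : 3 ≤ l := by
    have : (2 : ℝ) < l := by linarith
    have : 2 < l := by exact_mod_cast this
    omega
  have hl3R : (3 : ℝ) ≤ l := by exact_mod_cast hl3
  have hlr : l ≤ r := by
    have : (l : ℝ) ≤ r := by linarith
    exact_mod_cast this
  have hm := main_bound (r := r) (l := l) (a := a) (by omega) (by omega) hlr ha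
  refine hm.trans (mul_le_mul_of_nonneg_left ?_ hfac.le)
  -- the logarithm of `l`
  have hlogl : Real.log l ≤ Real.log L + 1 / 2 := by
    have h1 : Real.log l ≤ Real.log (L + 1) := Real.log_le_log (by linarith) hlL1
    have h2 : Real.log (L + 1) = Real.log L + Real.log (1 + 1 / L) := by
      rw [← Real.log_mul (by linarith) (by positivity)]
      congr 1; field_simp
    have h3 : Real.log (1 + 1 / L) ≤ 1 / L := by
      have := Real.log_le_sub_one_of_pos (show 0 < 1 + 1 / L by positivity)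
      linarith
    have h4 : 1 / L ≤ 1 / 2 := one_div_le_one_div_of_le (by norm_num) (by linarith)
    linarith
  -- the exponential factor
  have hexp : Real.exp (4 / l) ≤ 1 + 9 / l := by
    have hu0 : (0 : ℝ) ≤ 3 / l := by positivity
    have hu1 : (3 : ℝ) / l ≤ 1 := by rw [div_le_one (by linarith)]; exact hl3R
    have h1 : Real.exp (4 / 3) ≤ 4 := by
      have h2 : Real.exp (4 / 3) ^ 3 = (Real.exp 1) ^ 4 := by
        rw [← Real.exp_nat_mul, ← Real.exp_nat_mul]; norm_num
      have h3 : Real.exp 1 ≤ 2.72 := by have := Real.exp_one_lt_d9; linarith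
      have h4 : Real.exp (4 / 3) ^ 3 ≤ 4 ^ 3 := by
        rw [h2]
        calc (Real.exp 1) ^ 4 ≤ 2.72 ^ 4 := pow_le_pow_left₀ (Real.exp_pos _).le h3 4
          _ ≤ 4 ^ 3 := by norm_num
      exact (pow_le_pow_iff_left₀ (Real.exp_pos _).le (by norm_num) (by norm_num)).1 h4
    have hc := convexOn_exp.2 (Set.mem_univ (4 / 3 : ℝ)) (Set.mem_univ (0 : ℝ)) hu0
      (show (0 : ℝ) ≤ 1 - 3 / l by linarith) (by ring)
    simp only [smul_eq_mul, mul_zero, add_zero, Real.exp_zero, mul_one] at hc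
    have e1 : (3 : ℝ) / l * (4 / 3) = 4 / l := by ring
    rw [e1] at hc
    have e2 : (9 : ℝ) / l = 3 / l * 3 := by ring
    rw [e2]
    nlinarith
  have hX0 : 0 ≤ L + Real.log l + 7 := by
    have := Real.log_nonneg (show (1 : ℝ) ≤ l by linarith)
    linarith
  have hlogl2 : Real.log l ≤ l / 2 := by
    have h1 := Real.log_le_sub_one_of_pos (show (0 : ℝ) < l / 2 by linarith)
    have h2 : Real.log (l / 2) = Real.log l - Real.log 2 := by
      rw [Real.log_div (by linarith) (by norm_num)]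
    have h3 := Real.log_two_lt_d9
    linarith
  have hXl : 9 / (l : ℝ) * (L + Real.log l + 7) ≤ 35 := by
    rw [div_mul_eq_mul_div, div_le_iff₀ (by linarith)]
    linarith
  have hmain : Real.exp (4 / l) * (L + Real.log l + 7) ≤ L + Real.log L + 7.5 + 35 := by
    calc Real.exp (4 / l) * (L + Real.log l + 7) ≤ (1 + 9 / l) * (L + Real.log l + 7) :=
          mul_le_mul_of_nonneg_right hexp hX0
      _ = (L + Real.log l + 7) + 9 / (l : ℝ) * (L + Real.log l + 7) := by ring
      _ ≤ _ := by linarith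
  -- the second type
  have hsec : 30 * (l : ℝ) * r / 2 ^ ((r + 1) / 2 - 1) ≤ 66 := by
    rw [div_le_iff₀ (by positivity)]
    have h5 := four_sq ((r + 1) / 2) (by omega)
    set h : ℕ := (r + 1) / 2 with hh
    have h5R : 16 * (h : ℝ) ^ 2 ≤ 25 * 2 ^ (h - 1) := by exact_mod_cast h5
    have h6 : (r : ℝ) ≤ 2 * h := by
      exact_mod_cast (show r ≤ 2 * h by omega)
    have h7 : (l : ℝ) ≤ 0.35 * r := by linarith
    have h8 : 30 * (l : ℝ) * r ≤ 42 * (h : ℝ) ^ 2 := by
      calc 30 * (l : ℝ) * r ≤ 30 * (0.35 * r) * r := by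
            apply mul_le_mul_of_nonneg_right _ (by linarith)
            linarith
        _ = 10.5 * (r : ℝ) ^ 2 := by ring
        _ ≤ 10.5 * (2 * (h : ℝ)) ^ 2 := by
            apply mul_le_mul_of_nonneg_left _ (by norm_num)
            exact pow_le_pow_left₀ (by linarith) h6 2
        _ = 42 * (h : ℝ) ^ 2 := by ring
    have h9 : (0 : ℝ) < 2 ^ (h - 1) := by positivity
    linarith
  linarith

/-- The bound for every `r ≥ 3`. -/
theorem sharp {r a : ℕ} (hr : 3 ≤ r) (ha : r ^ 3 ≤ a) :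
    (a : ℝ) ^ (r - 1) * t r (a + 1) ≤
      r.factorial * (Real.log r + Real.log (Real.log r) + 110) := by
  have hfac : (0 : ℝ) < (r.factorial : ℝ) := by exact_mod_cast Nat.factorial_pos r
  rcases Nat.lt_or_ge r 10 with h10 | h10
  · obtain ⟨s, rfl⟩ : ∃ s, r = s + 1 := ⟨r - 1, by omega⟩
    have e : s + 1 - 1 = s := by omega
    rw [e]
    refine (small (by omega) ha).trans ?_
    have hlog3 : (1 : ℝ) ≤ Real.log ((s + 1 : ℕ) : ℝ) := by
      refine log_three.trans (Real.log_le_log (by norm_num) ?_)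
      exact_mod_cast hr
    have h1 : (110 : ℝ) ≤ Real.log ((s + 1 : ℕ) : ℝ) + Real.log (Real.log ((s + 1 : ℕ) : ℝ)) + 110 := by
      have := Real.log_nonneg hlog3
      linarith
    refine le_trans ?_ (mul_le_mul_of_nonneg_left h1 hfac.le)
    have hs2 : 2 ≤ s := by omega
    have hs9 : s < 9 := by omega
    clear h1 hlog3 hfac ha hr h10 e
    interval_cases s <;> norm_num [Nat.factorial]
  · exact large h10 ha

end Pool.Agent.TH487.LogR
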