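import Pool.Agent.TH487.LogR.Cover
import Pool.Agent.TH487.LogR.Blow

/-!
The numerical estimates: with `g = ⌊a / (l r²)⌋` groups of `120 l² r³` classes each,
`a^(r-1) (1 - π(K_(a+1)^r)) ≤ r! (e^(4/l) (log r + log l + 7) + 30 l r / 2^(h-1) + 1)`.
-/

set_option autoImplicit false

open Finset

namespace Pool.Agent.TH487.LogR

open Pool.Agent.H688R3.TuranGen

/-- `log C(N, s) ≤ s (log (N / s) + 1)` -/
lemma log_choose_le {N s : ℕ} (hs : 1 ≤ s) (hsN : s ≤ N) :
    Real.log (N.choose s : ℝ) ≤ s * (Real.log ((N : ℝ) / s) + 1) := by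
  have hs0 : (0 : ℝ) < s := by exact_mod_cast hs
  have hN0 : (0 : ℝ) < N := by exact_mod_cast (show 0 < N by omega)
  have hf : (0 : ℝ) < (s.factorial : ℝ) := by exact_mod_cast Nat.factorial_pos s
  have h1 : (N.choose s : ℝ) ≤ (N : ℝ) ^ s / (s.factorial : ℝ) := Nat.choose_le_pow_div s N
  have h2 : (s : ℝ) ^ s / (s.factorial : ℝ) ≤ Real.exp s :=
    Real.pow_div_factorial_le_exp (s : ℝ) hs0.le s
  have h3 : (N.choose s : ℝ) ≤ ((N : ℝ) / s) ^ s * Real.exp s := by
    refine h1.trans ?_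
    have e : (N : ℝ) ^ s / (s.factorial : ℝ) = ((N : ℝ) / s) ^ s * ((s : ℝ) ^ s / (s.factorial : ℝ)) := by
      rw [div_pow]; field_simp
    rw [e]
    exact mul_le_mul_of_nonneg_left h2 (by positivity)
  have hc : (0 : ℝ) < (N.choose s : ℝ) := by exact_mod_cast Nat.choose_pos hsN
  have h4 := Real.log_le_log hc h3
  rw [Real.log_mul (by positivity) (Real.exp_pos _).ne', Real.log_pow, Real.log_exp] at h4
  linarith

/-- the ratio of binomial coefficients -/
lemma choose_ratio {N s r : ℕ} (hrs : r ≤ s) :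
    (N.choose r : ℝ) / (s.choose r : ℝ) ≤ ((N : ℝ) / ((s + 1 - r : ℕ) : ℝ)) ^ r := by
  have hσ : (0 : ℝ) < ((s + 1 - r : ℕ) : ℝ) := by exact_mod_cast (show 0 < s + 1 - r by omega)
  have hf : (0 : ℝ) < (r.factorial : ℝ) := by exact_mod_cast Nat.factorial_pos r
  have h1 : (N.choose r : ℝ) ≤ (N : ℝ) ^ r / (r.factorial : ℝ) := Nat.choose_le_pow_div r N
  have h2 : (((s + 1 - r : ℕ) : ℝ)) ^ r / (r.factorial : ℝ) ≤ (s.choose r : ℝ) :=
    Nat.pow_le_choose r s
  have hp : 0 < (((s + 1 - r : ℕ) : ℝ)) ^ r / (r.factorial : ℝ) := by positivity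
  calc (N.choose r : ℝ) / (s.choose r : ℝ)
      ≤ ((N : ℝ) ^ r / (r.factorial : ℝ)) / (s.choose r : ℝ) :=
        div_le_div_of_nonneg_right h1 (Nat.cast_nonneg _)
    _ ≤ ((N : ℝ) ^ r / (r.factorial : ℝ)) / ((((s + 1 - r : ℕ) : ℝ)) ^ r / (r.factorial : ℝ)) :=
        div_le_div_of_nonneg_left (by positivity) hp h2
    _ = _ := by rw [div_pow]; field_simp

lemma one_sub_inv_le {y : ℝ} (hy0 : 0 ≤ y) (hy : y ≤ 1 / 2) : 1 / (1 - y) ≤ Real.exp (2 * y) := by
  have h1 : 0 < 1 - y := by linarith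
  rw [div_le_iff₀ h1]
  have h2 := Real.add_one_le_exp (2 * y)
  nlinarith

lemma log_240 : Real.log 240 ≤ 6 := by
  have h1 : (240 : ℝ) ≤ Real.exp 6 := by
    have h2 : (2.718 : ℝ) ≤ Real.exp 1 := by
      have := Real.exp_one_gt_d9; linarith
    have h3 : Real.exp 6 = (Real.exp 1) ^ 6 := by
      rw [← Real.exp_nat_mul]; norm_num
    rw [h3]
    calc (240 : ℝ) ≤ 2.718 ^ 6 := by norm_num
      _ ≤ _ := pow_le_pow_left₀ (by norm_num) h2 6
  calc Real.log 240 ≤ Real.log (Real.exp 6) := Real.log_le_log (by norm_num) h1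
    _ = 6 := Real.log_exp 6

/-- first type of blocks -/
lemma type_one {r l a g s N : ℕ} (hl : 1 ≤ l) (hr : 4 ≤ r) (hlr : l ≤ r) (ha : r ^ 3 ≤ a)
    (hg2 : g * (l * r ^ 2) ≤ a) (hs : s = a - g * r)
    (hN : N = g * (120 * l ^ 2 * r ^ 3)) (hNa : a ≤ N) :
    (a : ℝ) ^ (r - 1) / (N : ℝ) ^ r *
      ((N.choose r : ℝ) / (s.choose r : ℝ) * Real.log (N.choose s : ℝ) + 1) ≤
      Real.exp (4 / l) * (Real.log r + Real.log l + 7) + 1 := by
  have hr0 : (0 : ℝ) < r := by exact_mod_cast (show 0 < r by omega)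
  have hl0 : (0 : ℝ) < l := by exact_mod_cast (show 0 < l by omega)
  have hl1 : (1 : ℝ) ≤ l := by exact_mod_cast hl
  have hr4 : (4 : ℝ) ≤ r := by exact_mod_cast hr
  have hlr' : (l : ℝ) ≤ r := by exact_mod_cast hlr
  have haR : (r : ℝ) ^ 3 ≤ a := by exact_mod_cast ha
  have ha0 : (0 : ℝ) < a := lt_of_lt_of_le (by positivity) haR
  have hNR : (a : ℝ) ≤ N := by exact_mod_cast hNa
  have hN0 : (0 : ℝ) < N := lt_of_lt_of_le ha0 hNR
  have hg2R : (g : ℝ) * (l * r ^ 2) ≤ a := by exact_mod_cast hg2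
  -- `g r ≤ a / (l r)`
  have hgr : (g : ℝ) * r ≤ a / (l * r) := by
    rw [le_div_iff₀ (by positivity)]
    calc (g : ℝ) * r * (l * r) = g * (l * r ^ 2) := by ring
      _ ≤ a := hg2R
  have hgra : g * r ≤ a := by
    have h1 : g * r ≤ g * (l * r ^ 2) := by
      apply Nat.mul_le_mul_left
      nlinarith [Nat.mul_le_mul hl (le_refl (r ^ 2))]
    exact h1.trans hg2
  set y : ℝ := 2 / (l * r) with hy
  have hy0 : 0 ≤ y := by positivity
  have hy2 : y ≤ 1 / 2 := by
    rw [hy, div_le_div_iff₀ (by positivity) (by norm_num)]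
    nlinarith
  have hra : (r : ℝ) ≤ a / (l * r) := by
    rw [le_div_iff₀ (by positivity)]
    calc (r : ℝ) * (l * r) = l * r ^ 2 := by ring
      _ ≤ r * r ^ 2 := mul_le_mul_of_nonneg_right hlr' (by positivity)
      _ = r ^ 3 := by ring
      _ ≤ a := haR
  have hsR : (s : ℝ) = a - g * r := by
    rw [hs, Nat.cast_sub hgra]; push_cast; ring
  have hay : (a : ℝ) * y = 2 * (a / (l * r)) := by rw [hy]; ring
  have hσR : (a : ℝ) * (1 - y) ≤ (s : ℝ) - r := by
    rw [hsR]; nlinarith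
  have hs2 : (a : ℝ) * (1 / 2) ≤ (s : ℝ) - r := by
    refine le_trans ?_ hσR
    exact mul_le_mul_of_nonneg_left (by linarith) ha0.le
  have hrs : r ≤ s := by
    have : (r : ℝ) ≤ s := by linarith
    exact_mod_cast this
  have hs1 : 1 ≤ s := by omega
  have hsN : s ≤ N := by
    have : s ≤ a := by rw [hs]; omega
    omega
  have hσ : ((s + 1 - r : ℕ) : ℝ) = s - r + 1 := by
    rw [Nat.cast_sub (by omega)]; push_cast; ring
  have hσ0 : (0 : ℝ) < ((s + 1 - r : ℕ) : ℝ) := by rw [hσ]; linarith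
  have hs0 : (0 : ℝ) < s := by exact_mod_cast (show 0 < s by omega)
  -- the power
  have hpow : ((a : ℝ) / ((s + 1 - r : ℕ) : ℝ)) ^ r ≤ Real.exp (4 / l) := by
    have h1 : (a : ℝ) / ((s + 1 - r : ℕ) : ℝ) ≤ 1 / (1 - y) := by
      rw [div_le_div_iff₀ hσ0 (by linarith), one_mul, hσ]
      linarith
    have h2 := h1.trans (one_sub_inv_le hy0 hy2)
    calc ((a : ℝ) / ((s + 1 - r : ℕ) : ℝ)) ^ r ≤ (Real.exp (2 * y)) ^ r :=
          pow_le_pow_left₀ (by positivity) h2 r
      _ = Real.exp (4 / l) := by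
          rw [← Real.exp_nat_mul]
          congr 1
          rw [hy]; field_simp; norm_num
  -- the logarithm
  have hlogN : Real.log (N.choose s : ℝ) ≤ a * (Real.log r + Real.log l + 7) := by
    have h1 := log_choose_le hs1 hsN
    have hNs : (N : ℝ) / s ≤ 240 * l * r := by
      rw [div_le_iff₀ hs0]
      have h2 : (N : ℝ) = g * (120 * l ^ 2 * r ^ 3) := by rw [hN]; push_cast; ring
      rw [h2]
      calc (g : ℝ) * (120 * l ^ 2 * r ^ 3) = (g * (l * r ^ 2)) * (120 * l * r) := by ring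
        _ ≤ (a : ℝ) * (120 * l * r) := mul_le_mul_of_nonneg_right hg2R (by positivity)
        _ ≤ (2 * (s : ℝ)) * (120 * l * r) :=
            mul_le_mul_of_nonneg_right (by linarith) (by positivity)
        _ = 240 * (l : ℝ) * r * s := by ring
    have h3 : Real.log ((N : ℝ) / s) ≤ Real.log r + Real.log l + 6 := by
      calc Real.log ((N : ℝ) / s) ≤ Real.log (240 * l * r) :=
            Real.log_le_log (by positivity) hNs
        _ = Real.log 240 + Real.log l + Real.log r := by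
            rw [Real.log_mul (by positivity) hr0.ne', Real.log_mul (by norm_num) hl0.ne']
        _ ≤ _ := by have := log_240; linarith
    have h4 : 0 ≤ Real.log r + Real.log l + 7 := by
      have := Real.log_nonneg hl1
      have := Real.log_nonneg (show (1 : ℝ) ≤ r by linarith)
      linarith
    have hsa : (s : ℝ) ≤ a := by
      rw [hsR]
      have : 0 ≤ (g : ℝ) * r := by positivity
      linarith
    calc Real.log (N.choose s : ℝ) ≤ s * (Real.log ((N : ℝ) / s) + 1) := h1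
      _ ≤ s * (Real.log r + Real.log l + 7) := by
          apply mul_le_mul_of_nonneg_left _ hs0.le
          linarith
      _ ≤ a * (Real.log r + Real.log l + 7) := mul_le_mul_of_nonneg_right hsa h4
  have hlog0 : 0 ≤ Real.log (N.choose s : ℝ) := by
    apply Real.log_nonneg
    exact_mod_cast Nat.choose_pos hsN
  have hB0 : 0 ≤ Real.log r + Real.log l + 7 := by
    have := Real.log_nonneg hl1
    have := Real.log_nonneg (show (1 : ℝ) ≤ r by linarith)
    linarith
  have hone : (a : ℝ) ^ (r - 1) / (N : ℝ) ^ r ≤ 1 := by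
    rw [div_le_one (by positivity)]
    have h1 : (1 : ℝ) ≤ N := by
      have : (1 : ℝ) ≤ (r : ℝ) ^ 3 := one_le_pow₀ (by linarith)
      linarith
    calc (a : ℝ) ^ (r - 1) ≤ (N : ℝ) ^ (r - 1) := pow_le_pow_left₀ ha0.le hNR _
      _ ≤ (N : ℝ) ^ r := pow_le_pow_right₀ h1 (by omega)
  have hsucc : (a : ℝ) ^ r = a ^ (r - 1) * a := by
    rw [← pow_succ]; congr 1; omega
  rw [mul_add, mul_one]
  refine add_le_add ?_ hone
  calc (a : ℝ) ^ (r - 1) / (N : ℝ) ^ r *
        ((N.choose r : ℝ) / (s.choose r : ℝ) * Real.log (N.choose s : ℝ))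
      ≤ (a : ℝ) ^ (r - 1) / (N : ℝ) ^ r *
        (((N : ℝ) / ((s + 1 - r : ℕ) : ℝ)) ^ r * (a * (Real.log r + Real.log l + 7))) := by
        apply mul_le_mul_of_nonneg_left _ (by positivity)
        exact mul_le_mul (choose_ratio hrs) hlogN hlog0 (by positivity)
    _ = ((a : ℝ) / ((s + 1 - r : ℕ) : ℝ)) ^ r * (Real.log r + Real.log l + 7) := by
        rw [div_pow, div_pow, hsucc]; field_simp
    _ ≤ Real.exp (4 / l) * (Real.log r + Real.log l + 7) :=
        mul_le_mul_of_nonneg_right hpow hB0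

lemma exp_two_lt : Real.exp 2 ≤ 7.5 := by
  have h3 : Real.exp 2 = (Real.exp 1) ^ 2 := by
    rw [← Real.exp_nat_mul]; norm_num
  rw [h3]
  have h1 : Real.exp 1 ≤ 2.72 := by have := Real.exp_one_lt_d9; linarith
  calc (Real.exp 1) ^ 2 ≤ 2.72 ^ 2 := pow_le_pow_left₀ (Real.exp_pos _).le h1 2
    _ ≤ 7.5 := by norm_num

/-- second type of blocks -/
lemma type_two {r l a g h : ℕ} (hl : 1 ≤ l) (hr : 4 ≤ r) (hg : 1 ≤ g)
    (hg3 : a ≤ 2 * g * (l * r ^ 2)) (hh1 : r ≤ 2 * h) (hh2 : 2 * h ≤ r + 1) :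
    (a : ℝ) ^ (r - 1) / ((g * (120 * l ^ 2 * r ^ 3) : ℕ) : ℝ) ^ r *
      (g * ((120 * l ^ 2 * r ^ 3 : ℕ).choose h : ℝ) * ((h : ℝ) ^ r / r.factorial)) ≤
      30 * l * r / 2 ^ (h - 1) := by
  have hr0 : (0 : ℝ) < r := by exact_mod_cast (show 0 < r by omega)
  have hl0 : (0 : ℝ) < l := by exact_mod_cast (show 0 < l by omega)
  have hg0 : (0 : ℝ) < g := by exact_mod_cast (show 0 < g by omega)
  have hh0 : (0 : ℝ) < h := by exact_mod_cast (show 0 < h by omega)
  have hl1 : (1 : ℝ) ≤ l := by exact_mod_cast hl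
  have hr4 : (4 : ℝ) ≤ r := by exact_mod_cast hr
  have hg3R : (a : ℝ) ≤ 2 * g * (l * r ^ 2) := by exact_mod_cast hg3
  have hh1R : (r : ℝ) ≤ 2 * h := by exact_mod_cast hh1
  set M : ℕ := 120 * l ^ 2 * r ^ 3 with hM
  have hMR : (M : ℝ) = 120 * l ^ 2 * r ^ 3 := by rw [hM]; push_cast; ring
  have hM0 : (0 : ℝ) < M := by rw [hMR]; positivity
  have hM1 : (1 : ℝ) ≤ M := by
    rw [hMR]
    have h1 : (1 : ℝ) ≤ (l : ℝ) ^ 2 := one_le_pow₀ hl1
    have h2 : (1 : ℝ) ≤ (r : ℝ) ^ 3 := one_le_pow₀ (by linarith)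
    nlinarith
  set P : ℝ := 2 * (l * r ^ 2) with hP
  have hP0 : 0 < P := by positivity
  have hP1 : 1 ≤ P := by
    rw [hP]
    have h2 : (1 : ℝ) ≤ (r : ℝ) ^ 2 := one_le_pow₀ (by linarith)
    nlinarith
  have hag : (a : ℝ) / g ≤ P := by
    rw [div_le_iff₀ hg0, hP]; linarith
  have hf : (0 : ℝ) < (h.factorial : ℝ) := by exact_mod_cast Nat.factorial_pos h
  have hch : (M.choose h : ℝ) ≤ (M : ℝ) ^ h / (h.factorial : ℝ) := Nat.choose_le_pow_div h M
  have he1 : (h : ℝ) ^ r / (r.factorial : ℝ) ≤ Real.exp h :=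
    Real.pow_div_factorial_le_exp (h : ℝ) hh0.le r
  have he2 : 1 / (h.factorial : ℝ) ≤ Real.exp h / (h : ℝ) ^ h := by
    rw [le_div_iff₀ (by positivity)]
    have := Real.pow_div_factorial_le_exp (h : ℝ) hh0.le h
    calc 1 / (h.factorial : ℝ) * (h : ℝ) ^ h = (h : ℝ) ^ h / (h.factorial : ℝ) := by ring
      _ ≤ _ := this
  have hexph : Real.exp h = (Real.exp 1) ^ h := by
    rw [← Real.exp_nat_mul, mul_one]
  -- the power of P
  have hPM : P ^ (r - 1) * (M : ℝ) ^ h / (M : ℝ) ^ r ≤ P * (P ^ 2 / M) ^ (h - 1) := by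
    rw [div_le_iff₀ (by positivity), div_pow, ← pow_mul]
    have hcase : r = 2 * h ∨ r + 1 = 2 * h := by omega
    rcases hcase with hc | hc
    · have e1 : P ^ (r - 1) = P * P ^ (2 * (h - 1)) := by
        rw [← pow_succ']; congr 1; omega
      have e2 : (M : ℝ) ^ r = (M : ℝ) ^ (h - 1) * ((M : ℝ) ^ h * M) := by
        rw [← pow_succ, ← pow_add]; congr 1; omega
      rw [e1, e2]
      calc P * P ^ (2 * (h - 1)) * (M : ℝ) ^ h
          = P * P ^ (2 * (h - 1)) * ((M : ℝ) ^ h * 1) := by ring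
        _ ≤ P * P ^ (2 * (h - 1)) * ((M : ℝ) ^ h * M) := by
            apply mul_le_mul_of_nonneg_left _ (by positivity)
            exact mul_le_mul_of_nonneg_left hM1 (by positivity)
        _ = P * (P ^ (2 * (h - 1)) / (M : ℝ) ^ (h - 1)) *
            ((M : ℝ) ^ (h - 1) * ((M : ℝ) ^ h * M)) := by
            field_simp
    · have e1 : P ^ (r - 1) = P ^ (2 * (h - 1)) := by
        congr 1; omega
      have e2 : (M : ℝ) ^ r = (M : ℝ) ^ (h - 1) * (M : ℝ) ^ h := by
        rw [← pow_add]; congr 1; omega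
      rw [e1, e2]
      calc P ^ (2 * (h - 1)) * (M : ℝ) ^ h
          = 1 * (P ^ (2 * (h - 1)) * (M : ℝ) ^ h) := by ring
        _ ≤ P * (P ^ (2 * (h - 1)) * (M : ℝ) ^ h) :=
            mul_le_mul_of_nonneg_right hP1 (by positivity)
        _ = P * (P ^ (2 * (h - 1)) / (M : ℝ) ^ (h - 1)) *
            ((M : ℝ) ^ (h - 1) * (M : ℝ) ^ h) := by
            field_simp
  have hP2M : P ^ 2 / M ≤ h / 15 := by
    rw [hMR, hP, div_le_div_iff₀ (by positivity) (by norm_num)]
    have h1 : (0 : ℝ) ≤ (l : ℝ) ^ 2 * r ^ 3 := by positivity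
    calc (2 * ((l : ℝ) * r ^ 2)) ^ 2 * 15 = 60 * r * (l ^ 2 * r ^ 3) := by ring
      _ ≤ 60 * (2 * (h : ℝ)) * (l ^ 2 * r ^ 3) := by
          apply mul_le_mul_of_nonneg_right _ h1
          linarith [hh1R]
      _ = (h : ℝ) * (120 * l ^ 2 * r ^ 3) := by ring
  have hPh : P / h ≤ 4 * l * r := by
    rw [hP, div_le_iff₀ hh0]
    nlinarith [mul_pos hl0 hr0]
  -- assemble
  have hgr : ((g * M : ℕ) : ℝ) ^ r = (g : ℝ) ^ (r - 1) * g * (M : ℝ) ^ r := by
    push_cast
    rw [mul_pow, ← pow_succ]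
    congr 2; omega
  have hh' : (h : ℝ) ^ h = (h : ℝ) ^ (h - 1) * h := by
    rw [← pow_succ]; congr 1; omega
  have he' : (Real.exp 1) ^ h = (Real.exp 1) ^ (h - 1) * Real.exp 1 := by
    rw [← pow_succ]; congr 1; omega
  have he1' : 0 < Real.exp 1 := Real.exp_pos 1
  have hexp2 : (Real.exp 1) ^ 2 ≤ 7.5 := by
    have := exp_two_lt
    have h3 : Real.exp 2 = (Real.exp 1) ^ 2 := by
      rw [← Real.exp_nat_mul]; norm_num
    rwa [h3] at this
  calc (a : ℝ) ^ (r - 1) / ((g * M : ℕ) : ℝ) ^ r *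
        (g * (M.choose h : ℝ) * ((h : ℝ) ^ r / r.factorial))
      = ((a : ℝ) / g) ^ (r - 1) * (M.choose h : ℝ) / (M : ℝ) ^ r *
        ((h : ℝ) ^ r / r.factorial) := by
        rw [hgr, div_pow]; field_simp
    _ ≤ P ^ (r - 1) * ((M : ℝ) ^ h / (h.factorial : ℝ)) / (M : ℝ) ^ r * Real.exp h := by
        apply mul_le_mul _ he1 (by positivity) (by positivity)
        apply div_le_div_of_nonneg_right _ (by positivity)
        apply mul_le_mul _ hch (by positivity) (by positivity)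
        exact pow_le_pow_left₀ (by positivity) hag _
    _ = (P ^ (r - 1) * (M : ℝ) ^ h / (M : ℝ) ^ r) * (1 / (h.factorial : ℝ)) * Real.exp h := by
        ring
    _ ≤ (P * (P ^ 2 / M) ^ (h - 1)) * (Real.exp h / (h : ℝ) ^ h) * Real.exp h := by
        apply mul_le_mul_of_nonneg_right _ (Real.exp_pos _).le
        exact mul_le_mul hPM he2 (by positivity) (by positivity)
    _ ≤ (P * (h / 15) ^ (h - 1)) * (Real.exp h / (h : ℝ) ^ h) * Real.exp h := by
        apply mul_le_mul_of_nonneg_right _ (Real.exp_pos _).le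
        apply mul_le_mul_of_nonneg_right _ (by positivity)
        apply mul_le_mul_of_nonneg_left _ hP0.le
        exact pow_le_pow_left₀ (by positivity) hP2M _
    _ = (P / h) * ((Real.exp 1) ^ 2 * ((Real.exp 1) ^ 2 / 15) ^ (h - 1)) := by
        rw [hexph, hh', he', div_pow, div_pow, ← pow_mul]
        field_simp
        ring
    _ ≤ (4 * l * r) * (7.5 * (1 / 2) ^ (h - 1)) := by
        apply mul_le_mul hPh _ (by positivity) (by positivity)
        apply mul_le_mul hexp2 _ (by positivity) (by positivity)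
        apply pow_le_pow_left₀ (by positivity)
        linarith
    _ = 30 * l * r / 2 ^ (h - 1) := by
        rw [div_pow, one_pow]; ring

/-- The main bound, with a free parameter `l`. -/
theorem main_bound {r l a : ℕ} (hl : 1 ≤ l) (hr : 4 ≤ r) (hlr : l ≤ r) (ha : r ^ 3 ≤ a) :
    (a : ℝ) ^ (r - 1) * t r (a + 1) ≤ r.factorial *
      (Real.exp (4 / l) * (Real.log r + Real.log l + 7) +
        30 * l * r / 2 ^ ((r + 1) / 2 - 1) + 1) := by
  set h : ℕ := (r + 1) / 2 with hh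
  set K : ℕ := l * r ^ 2 with hK
  have hK0 : 0 < K := Nat.mul_pos (by omega) (pow_pos (by omega) 2)
  have hKr : K ≤ r ^ 3 := by
    rw [hK, pow_succ' r 2]; exact Nat.mul_le_mul_right _ hlr
  set g : ℕ := a / K with hg
  have hg1 : 1 ≤ g := Nat.div_pos (hKr.trans ha) hK0
  have hg2 : g * K ≤ a := Nat.div_mul_le_self a K
  have hg3 : a < K * (g + 1) := Nat.lt_mul_div_succ a hK0
  have hg3' : a ≤ 2 * g * K := by nlinarith
  set s : ℕ := a - g * r with hs
  set M : ℕ := 120 * l ^ 2 * r ^ 3 with hM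
  have hM1 : 1 ≤ M := Nat.mul_pos (Nat.mul_pos (by norm_num) (pow_pos (by omega) 2))
    (pow_pos (by omega) 3)
  have hNa : a ≤ g * M := by
    have h1 : 2 * K ≤ M := by
      rw [hK, hM]
      have : l * r ^ 2 * 2 ≤ (l * r ^ 2) * (120 * l * r) := by
        apply Nat.mul_le_mul_left
        have : 1 * 1 ≤ l * r := Nat.mul_le_mul hl (by omega)
        nlinarith
      calc 2 * (l * r ^ 2) = l * r ^ 2 * 2 := by ring
        _ ≤ (l * r ^ 2) * (120 * l * r) := this
        _ = 120 * l ^ 2 * r ^ 3 := by ring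
    calc a ≤ 2 * g * K := hg3'
      _ = g * (2 * K) := by ring
      _ ≤ g * M := Nat.mul_le_mul_left _ h1
  have hgra : g * r ≤ a := by
    have h1 : g * r ≤ g * K := by
      apply Nat.mul_le_mul_left
      rw [hK]
      nlinarith [Nat.mul_le_mul hl (le_refl (r ^ 2))]
    exact h1.trans hg2
  have h1 := type_one (r := r) (l := l) (a := a) (g := g) (s := s) (N := g * M) hl hr hlr ha hg2
    hs rfl hNa
  have h2 := type_two (r := r) (l := l) (a := a) (g := g) (h := h) hl hr hg1 hg3' (by omega)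
    (by omega)
  have hsa : s ≤ g * M := by omega
  have hrs : r ≤ s := by
    have e1 : 2 * (g * r) ≤ a := by
      calc 2 * (g * r) ≤ r * (g * r) := Nat.mul_le_mul_right _ (by omega)
        _ = g * (1 * r ^ 2) := by ring
        _ ≤ g * (l * r ^ 2) := Nat.mul_le_mul_left _ (Nat.mul_le_mul_right _ hl)
        _ ≤ a := hg2
    have e2 : 2 * r ≤ a := by
      calc 2 * r ≤ r * r := Nat.mul_le_mul_right _ (by omega)
        _ = r * r * 1 := by ring
        _ ≤ r * r * r := Nat.mul_le_mul_left _ (by omega)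
        _ = r ^ 3 := by ring
        _ ≤ a := ha
    omega
  obtain ⟨H, hH1, hH2, hH3⟩ := exists_cover (N := g * M) (r := r) (s := s) hrs hsa
  have hhM : h ≤ M := by
    have e3 : r ^ 1 ≤ r ^ 3 := Nat.pow_le_pow_right (by omega) (by norm_num)
    have e4 : r ^ 3 ≤ M := by
      rw [hM]
      exact Nat.le_mul_of_pos_left _ (Nat.mul_pos (by norm_num) (pow_pos (by omega) 2))
    rw [pow_one] at e3
    omega
  have hmm : g * (r - 1) + s ≤ a + 1 := by
    have e5 : g * (r - 1) ≤ g * r := Nat.mul_le_mul_left _ (by omega)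
    omega
  have h3 := t_le (r := r) (s := s) (h := h) (m := a + 1) (g := g) (N' := M) H hH1 hH2 (by omega)
    hhM hmm (by omega) hg1 hM1
  have hfac : (0 : ℝ) < (r.factorial : ℝ) := by exact_mod_cast Nat.factorial_pos r
  have hN0 : (0 : ℝ) < ((g * M : ℕ) : ℝ) := by
    exact_mod_cast Nat.mul_pos (show 0 < g by omega) (show 0 < M by omega)
  calc (a : ℝ) ^ (r - 1) * t r (a + 1)
      ≤ (a : ℝ) ^ (r - 1) * (((H.card : ℝ) + g * (M.choose h : ℝ) *
          ((h : ℝ) ^ r / r.factorial)) * r.factorial / ((g * M : ℕ) : ℝ) ^ r) :=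
        mul_le_mul_of_nonneg_left h3 (by positivity)
    _ ≤ (a : ℝ) ^ (r - 1) * ((((((g * M : ℕ).choose r : ℝ)) / (s.choose r : ℝ) *
          Real.log ((g * M : ℕ).choose s : ℝ) + 1) + g * (M.choose h : ℝ) *
          ((h : ℝ) ^ r / r.factorial)) * r.factorial / ((g * M : ℕ) : ℝ) ^ r) := by
        apply mul_le_mul_of_nonneg_left _ (by positivity)
        apply div_le_div_of_nonneg_right _ (by positivity)
        apply mul_le_mul_of_nonneg_right _ hfac.le
        linarith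
    _ = r.factorial * ((a : ℝ) ^ (r - 1) / ((g * M : ℕ) : ℝ) ^ r *
          ((((g * M : ℕ).choose r : ℝ)) / (s.choose r : ℝ) *
          Real.log ((g * M : ℕ).choose s : ℝ) + 1) +
          (a : ℝ) ^ (r - 1) / ((g * M : ℕ) : ℝ) ^ r * (g * (M.choose h : ℝ) *
          ((h : ℝ) ^ r / r.factorial))) := by ring
    _ ≤ _ := by
        apply mul_le_mul_of_nonneg_left _ hfac.le
        linarith

end Pool.Agent.TH487.LogR
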